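import Pool.Agent.H44.DU.Targets

/-!
# Crossing a triangle
-/

set_option autoImplicit false

namespace Pool.Agent.H56.DU

open Pool.Agent.H44.DU

variable {n : ℕ}

lemma pt_re (S : Surf n) (t : ℝ) (s : Side n) (x : ℝ) :
    (S.pt t s x).re = (S.P s).re + S.lam t s x * ((S.Q s).re - (S.P s).re) := by
  simp [Surf.pt]

lemma pt_im (S : Surf n) (t : ℝ) (s : Side n) (x : ℝ) :
    (S.pt t s x).im = (S.P s).im + S.lam t s x * ((S.Q s).im - (S.P s).im) := by
  simp [Surf.pt]

lemma xi_pt (h : T_PT) (S : Surf n) (t : ℝ) (s : Side n) (x : ℝ)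
    (hne : xi t (S.P s) ≠ xi t (S.Q s)) : (S.pt t s x).re - t * (S.pt t s x).im = x := by
  have := (h n S t s hne).1 x
  simpa [xi] using this

/-- The fundamental identity for the opposite corner. -/
lemma cross_O (h : T_PT) (S : Surf n) (t : ℝ) (s : Side n) (x : ℝ)
    (hne : xi t (S.P s) ≠ xi t (S.Q s)) (hx : x = xi t (S.O s)) :
    ((S.O s).im - (S.pt t s x).im) * (xi t (S.Q s) - xi t (S.P s)) = S.ar s := by
  have h1 := xi_pt h S t s x hne
  have h2 := pt_re S t s x
  have h3 := pt_im S t s x
  have h4 : (S.O s).re - t * (S.O s).im = x := by rw [hx]; rfl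
  have h5 : (S.O s).re - (S.pt t s x).re = t * ((S.O s).im - (S.pt t s x).im) := by
    linear_combination h4 - h1
  have h6 : ((S.O s).im - (S.pt t s x).im) * (xi t (S.Q s) - xi t (S.P s)) =
      ((S.Q s).re - (S.P s).re) * ((S.O s).im - (S.pt t s x).im) -
      ((S.Q s).im - (S.P s).im) * ((S.O s).re - (S.pt t s x).re) := by
    rw [h5]
    simp only [xi]
    ring
  rw [h6, h2, h3]
  simp only [Surf.ar, Complex.sub_re, Complex.sub_im]
  ring

theorem pf_CR (h : T_PT) : T_CR := by
  intro n S t x
  refine ⟨?_, ?_, ?_⟩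
  · intro s r hsr hI hJ
    have hns : xi t (S.P s) ≠ xi t (S.Q s) := (hI.1.trans hI.2).ne
    have hnr : xi t (S.P r) ≠ xi t (S.Q r) := (hJ.1.trans hJ.2).ne'
    have hA := xi_pt h S t s x hns
    have hB := xi_pt h S t r x hnr
    have hA1 := pt_re S t s x
    have hA2 := pt_im S t s x
    have hB1 := pt_re S t r x
    have hB2 := pt_im S t r x
    have har := S.ar_pos s
    have hd : 0 < xi t (S.Q s) - xi t (S.P s) := by linarith [hI.1.trans hI.2]
    have hden : 0 < xi t (S.P r) - xi t (S.Q r) := by linarith [hJ.1.trans hJ.2]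
    have hm0 : 0 < S.lam t r x := by
      rw [Surf.lam]
      exact div_pos (by linarith [hJ.2]) hden
    have hm1 : S.lam t r x < 1 := by
      rw [Surf.lam, div_lt_one hden]
      linarith [hJ.1]
    have hre : (S.pt t r x).re - (S.pt t s x).re = t * ((S.pt t r x).im - (S.pt t s x).im) := by
      linear_combination hB - hA
    have key : ((S.pt t r x).im - (S.pt t s x).im) * (xi t (S.Q s) - xi t (S.P s)) =
        ((S.Q s).re - (S.P s).re) * ((S.pt t r x).im - (S.pt t s x).im) -
        ((S.Q s).im - (S.P s).im) * ((S.pt t r x).re - (S.pt t s x).re) := by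
      rw [hre]
      simp only [xi]
      ring
    have hrs : r ≠ s := by
      rintro rfl
      exact S.not_inI_of_inJ hJ hI
    have hpos : 0 < ((S.pt t r x).im - (S.pt t s x).im) * (xi t (S.Q s) - xi t (S.P s)) := by
      rcases side_cases hsr.symm with h1 | h1 | h1
      · exact absurd h1 hrs
      · have h2 : S.P r = S.Q s := by rw [h1, Surf.P_nx]
        have h3 : S.Q r = S.O s := by rw [h1, Surf.Q_nx]
        have h4 : ((S.pt t r x).im - (S.pt t s x).im) * (xi t (S.Q s) - xi t (S.P s)) =
            S.lam t r x * S.ar s := by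
          rw [key, hA1, hA2, hB1, hB2, h2, h3]
          simp only [Surf.ar, Complex.sub_re, Complex.sub_im]
          ring
        rw [h4]
        exact mul_pos hm0 har
      · have h2 : S.P r = S.O s := by rw [h1, Surf.P_nx_nx]
        have h3 : S.Q r = S.P s := by rw [h1, Surf.Q_nx_nx]
        have h4 : ((S.pt t r x).im - (S.pt t s x).im) * (xi t (S.Q s) - xi t (S.P s)) =
            (1 - S.lam t r x) * S.ar s := by
          rw [key, hA1, hA2, hB1, hB2, h2, h3]
          simp only [Surf.ar, Complex.sub_re, Complex.sub_im]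
          ring
        rw [h4]
        exact mul_pos (by linarith) har
    refine ⟨?_, ?_⟩
    · have := pos_of_mul_pos_left hpos hd.le
      linarith
    · apply Complex.ext
      · simp
        linarith
      · simp
  · intro r hJ hx
    have hnr : xi t (S.P r) ≠ xi t (S.Q r) := (hJ.1.trans hJ.2).ne'
    have h1 := cross_O h S t r x hnr hx
    have h2 := S.ar_pos r
    have h3 : xi t (S.Q r) < xi t (S.P r) := hJ.1.trans hJ.2
    rw [← h1] at h2
    by_contra h4
    push Not at h4
    have : ((S.O r).im - (S.pt t r x).im) * (xi t (S.Q r) - xi t (S.P r)) ≤ 0 :=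
      mul_nonpos_of_nonneg_of_nonpos (by linarith) (by linarith)
    linarith
  · intro s hlt _ _ hx
    have h1 := cross_O h S t s x hlt.ne hx
    have h2 := S.ar_pos s
    rw [← h1] at h2
    have := pos_of_mul_pos_left h2 (by linarith)
    linarith

end Pool.Agent.H56.DU
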